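import Mathlib
import Pool.Agent.H934R3.Final1e

/-!
# A hyperbolic 3-manifold with a rank-one cusp and without minimal surfaces of finite area

The fundamental group is free of rank two. The definitions are in `Pool.Agent.H934R3.Basic` (the
hyperbolic metric), `Pool.Agent.H934R3.Defs` (surfaces) and `Pool.Agent.H934R3.Cusp` (cusps).
-/

set_option autoImplicit false

namespace Pool.Agent.Results.MP_1edc9b_gt.FreeGroupExample

open Pool.Agent.H934R3

/-- There is a hyperbolic 3-manifold `H3 / Γ` with a rank-one cusp, with `Γ` free of rank two,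
which contains no finite-area complete embedded minimal surface. -/
theorem result : ∃ Γ : Subgroup (H3 ≃ᵢ H3),
    IsDiscreteGroup Γ ∧ IsTorsionFreeGroup Γ ∧ HasRankOneCusp Γ ∧
    Nonempty (FreeGroup Bool ≃* Γ) ∧
    ∀ S : Set H3, ¬ IsFiniteAreaMinimal Γ S :=
  main1e_free

end Pool.Agent.Results.MP_1edc9b_gt.FreeGroupExample
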